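import Mathlib
import Pool.Agent.W866.SS.Solovay

/-!
# Countably compact subgroups of compact groups of weight `ℵ₁` under Martin's axiom
-/

set_option autoImplicit false

open Set Filter Topology Cardinal Pointwise TopologicalSpace

namespace Pool.Agent.Helper9CC

open Pool.Agent.W684

/-- Under `MA_{ℵ₁}`, in a Hausdorff space with a base of at most `ℵ₁` sets the closure of a
countable subset of a countably compact set `D` is contained in `D`. -/
theorem closure_subset_of_ma (hMA : MartinAxiomAleph1) {X : Type} [TopologicalSpace X] [T2Space X]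
    {B : Set (Set X)} (hB : IsTopologicalBasis B) (hc : #B ≤ ℵ₁) {D A : Set X}
    (hD : IsCountablyCompact D) (hA : A.Countable) (hAD : A ⊆ D) : closure A ⊆ D := by
  classical
  intro x hx
  by_contra hxD
  have hxA : x ∉ A := fun h => hxD (hAD h)
  have : Countable A := hA.to_subtype
  have hinf : ∀ U ∈ 𝓝 x, (A ∩ U).Infinite := by
    intro U hU hfin
    have h1 : (A ∩ U)ᶜ ∈ 𝓝 x := hfin.isClosed.isOpen_compl.mem_nhds fun h => hxA h.1
    obtain ⟨y, hy1, hy2⟩ := mem_closure_iff_nhds.1 hx _ (inter_mem hU h1)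
    exact hy1.2 ⟨hy2, hy1.1⟩
  obtain ⟨C, hC1, hC2⟩ := Pool.Agent.W866.SS.solovay (N := A) (ιA := {b : B // x ∈ b.1})
    (ιB := Unit) hMA ((mk_subtype_le _).trans hc)
    ((mk_le_aleph0 (α := Unit)).trans (aleph0_le_aleph 1))
    (fun b => {a : A | a.1 ∉ b.1.1}) (fun _ => univ) (by
      intro _ F
      have h1 : (⋂ b ∈ F, b.1.1) ∈ 𝓝 x := by
        rw [Filter.biInter_finset_mem]
        intro b _
        exact hB.mem_nhds b.1.2 b.2
      have h2 := hinf _ h1
      refine Set.Infinite.of_image (fun a : A => a.1) (h2.mono ?_)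
      rintro y ⟨hyA, hy⟩
      refine ⟨⟨y, hyA⟩, ⟨mem_univ _, ?_⟩, rfl⟩
      simp only [mem_iUnion, mem_ofPred_eq, not_exists, not_not]
      intro b hb
      exact mem_iInter₂.1 hy b hb)
  have hCi : ((fun a : A => a.1) '' C).Infinite := by
    have := hC2 ()
    rw [inter_univ] at this
    exact this.image Subtype.val_injective.injOn
  have hCD : ((fun a : A => a.1) '' C) ⊆ D := by
    rintro _ ⟨a, _, rfl⟩
    exact hAD a.2
  obtain ⟨a, haD, ha⟩ := hD.exists_accPt_of_infinite hCD hCi
  have hne : a ≠ x := fun h => hxD (h ▸ haD)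
  obtain ⟨U, V, hU, hV, haU, hxV, hUV⟩ := t2_separation hne
  obtain ⟨b, hbB, hxb, hbV⟩ := hB.mem_nhds_iff.1 (hV.mem_nhds hxV)
  have hfin : (U ∩ ((fun a : A => a.1) '' C)).Finite := by
    refine ((hC1 ⟨⟨b, hbB⟩, hxb⟩).image (fun a : A => a.1)).subset ?_
    rintro _ ⟨hyU, y, hyC, rfl⟩
    exact ⟨y, ⟨hyC, fun h => disjoint_left.1 hUV hyU (hbV h)⟩, rfl⟩
  have h3 : ((U ∩ ((fun a : A => a.1) '' C)) \ {a})ᶜ ∈ 𝓝 a :=
    (hfin.subset sdiff_subset).isClosed.isOpen_compl.mem_nhds fun h => h.2 rfl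
  obtain ⟨y, ⟨hy1, hy2⟩, hy3⟩ := (accPt_iff_nhds.1 ha) _ (inter_mem (hU.mem_nhds haU) h3)
  exact hy1.2 ⟨⟨hy1.1, hy2⟩, hy3⟩

/-- The weight of a topological space: the least cardinality of a base. -/
noncomputable def weight (X : Type) [TopologicalSpace X] : Cardinal.{0} :=
  sInf {κ | ∃ B : Set (Set X), IsTopologicalBasis B ∧ #B = κ}

theorem weight_le {X : Type} [TopologicalSpace X] {B : Set (Set X)} (hB : IsTopologicalBasis B) :
    weight X ≤ #B := csInf_le' ⟨B, hB, rfl⟩

theorem exists_basis (X : Type) [TopologicalSpace X] :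
    ∃ B : Set (Set X), IsTopologicalBasis B ∧ #B = weight X :=
  csInf_mem (s := {κ | ∃ B : Set (Set X), IsTopologicalBasis B ∧ #B = κ})
    ⟨_, {s | IsOpen s}, isTopologicalBasis_opens, rfl⟩

theorem weight_le_of_inducing {X Y : Type} [TopologicalSpace X] [TopologicalSpace Y] {g : X → Y}
    (hg : IsInducing g) : weight X ≤ weight Y := by
  obtain ⟨B, hB, hBc⟩ := exists_basis Y
  rw [← hBc]
  exact (weight_le (hB.isInducing hg)).trans mk_image_le

theorem weight_homeomorph {X Y : Type} [TopologicalSpace X] [TopologicalSpace Y] (e : X ≃ₜ Y) :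
    weight X = weight Y :=
  le_antisymm (weight_le_of_inducing e.isInducing) (weight_le_of_inducing e.symm.isInducing)

theorem secondCountable_iff {X : Type} [TopologicalSpace X] :
    SecondCountableTopology X ↔ weight X ≤ ℵ₀ := by
  constructor
  · intro h
    refine (weight_le (TopologicalSpace.isBasis_countableBasis X)).trans ?_
    exact mk_le_aleph0_iff.2 (TopologicalSpace.countable_countableBasis X).to_subtype
  · intro h
    obtain ⟨B, hB, hBc⟩ := exists_basis X
    rw [← hBc] at h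
    exact hB.secondCountableTopology (mk_le_aleph0_iff.1 h : Countable B).to_set

end Pool.Agent.Helper9CC
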