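import Mathlib
import Pool.Agent.Helper9CC.Basic

/-!
# Images of countably compact subgroups of compact groups of weight `ℵ₁`
-/

set_option autoImplicit false

open Set Filter Topology Cardinal Pointwise TopologicalSpace

namespace Pool.Agent.Helper9CC

open Pool.Agent.W684

theorem exists_split {L : Type} [Group L] [TopologicalSpace L] [IsTopologicalGroup L] {W : Set L}
    (hW : W ∈ 𝓝 (1 : L)) : ∃ V ∈ 𝓝 (1 : L), ∀ u ∈ V, ∀ v ∈ V, u⁻¹ * v ∈ W := by
  obtain ⟨V, hV, hVV⟩ := exists_nhds_split_inv hW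
  refine ⟨V⁻¹, inv_mem_nhds_one L hV, fun u hu v hv => ?_⟩
  have := hVV u⁻¹ hu v⁻¹ hv
  rwa [div_inv_eq_mul] at this

/-- A totally bounded group with a local base at `1` of size at most `κ` has weight at most `κ`. -/
theorem weight_le_of_local {L : Type} [Group L] [TopologicalSpace L] [IsTopologicalGroup L]
    {ι : Type} (E : ι → Set L) (hE : ∀ i, E i ∈ 𝓝 (1 : L))
    (hb : ∀ W ∈ 𝓝 (1 : L), ∃ i, E i ⊆ W)
    (ht : ∀ W ∈ 𝓝 (1 : L), ∃ F : Finset L, ∀ x, ∃ f ∈ F, f⁻¹ * x ∈ W)
    {κ : Cardinal.{0}} (hκ : ℵ₀ ≤ κ) (hι : #ι ≤ κ) : weight L ≤ κ := by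
  classical
  choose F hF using fun i => ht (interior (E i)) (interior_mem_nhds.2 (hE i))
  let B : Set (Set L) :=
    range (fun p : Σ i, F i => {x : L | (p.2 : L)⁻¹ * x ∈ interior (E p.1)})
  have hB : IsTopologicalBasis B := by
    apply isTopologicalBasis_of_isOpen_of_nhds
    · rintro _ ⟨p, rfl⟩
      exact isOpen_interior.preimage (continuous_const.mul continuous_id)
    · intro x O hx hO
      have h1 : {y : L | x * y ∈ O} ∈ 𝓝 (1 : L) := by
        refine (hO.preimage (continuous_const.mul continuous_id)).mem_nhds ?_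
        simpa using hx
      obtain ⟨V, hV, hVV⟩ := exists_split h1
      obtain ⟨i, hi⟩ := hb V hV
      obtain ⟨f, hf, hfx⟩ := hF i x
      refine ⟨_, ⟨⟨i, f, hf⟩, rfl⟩, hfx, ?_⟩
      intro y hy
      have hy' : f⁻¹ * y ∈ interior (E i) := hy
      have h2 := hVV _ (hi (interior_subset hfx)) _ (hi (interior_subset hy'))
      have h3 : (f⁻¹ * x)⁻¹ * (f⁻¹ * y) = x⁻¹ * y := by group
      rw [h3] at h2
      have h4 : x * (x⁻¹ * y) ∈ O := h2
      rwa [mul_inv_cancel_left] at h4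
  refine (weight_le hB).trans (mk_range_le.trans ?_)
  choose g hg using fun i => Countable.exists_injective_nat (F i)
  have hinj : Function.Injective (fun p : Σ i, F i => ((p.1, g p.1 p.2) : ι × ℕ)) := by
    rintro ⟨i, a⟩ ⟨j, b⟩ h
    obtain ⟨h1, h2⟩ := Prod.ext_iff.1 h
    dsimp at h1 h2
    subst h1
    rw [hg i h2]
  refine (mk_le_of_injective hinj).trans ?_
  rw [mk_prod, lift_id, lift_id, mk_nat]
  exact (mul_le_mul' hι hκ).trans (mul_eq_self hκ).le

/-- Subgroups of compact groups are totally bounded. -/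
theorem exists_finset_subgroup {G : Type} [Group G] [TopologicalSpace G] [IsTopologicalGroup G]
    [CompactSpace G] (D : Subgroup G) {W : Set G} (hW : W ∈ 𝓝 (1 : G)) :
    ∃ F : Finset D, ∀ x : D, ∃ f ∈ F, ((f⁻¹ * x : D) : G) ∈ W := by
  classical
  obtain ⟨V, hV, hVV⟩ := exists_split hW
  have h1 : ∀ g : G, {x : G | g⁻¹ * x ∈ V} ∈ 𝓝 g := by
    intro g
    have hc : ContinuousAt (fun x : G => g⁻¹ * x) g :=
      (continuous_const.mul continuous_id).continuousAt
    exact hc (by simpa using hV)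
  obtain ⟨t, ht⟩ := CompactSpace.elim_nhds_subcover _ h1
  let r : G → D := fun g => if h : ∃ d : D, g⁻¹ * (d : G) ∈ V then h.choose else 1
  refine ⟨t.image r, fun x => ?_⟩
  have hx : (x : G) ∈ ⋃ g ∈ t, {x : G | g⁻¹ * x ∈ V} := by
    rw [ht]; trivial
  obtain ⟨g, hg, hgx⟩ := mem_iUnion₂.1 hx
  have hex : ∃ d : D, g⁻¹ * (d : G) ∈ V := ⟨x, hgx⟩
  refine ⟨r g, Finset.mem_image_of_mem r hg, ?_⟩
  have hr : g⁻¹ * (r g : G) ∈ V := by
    simp only [r, dif_pos hex]
    exact hex.choose_spec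
  have h2 := hVV _ hr _ hgx
  have h3 : (g⁻¹ * (r g : G))⁻¹ * (g⁻¹ * (x : G)) = ((r g : G))⁻¹ * (x : G) := by group
  rw [h3] at h2
  exact h2

section Image

variable {G L : Type} [Group G] [TopologicalSpace G] [IsTopologicalGroup G] [CompactSpace G]
  [Group L] [TopologicalSpace L] [IsTopologicalGroup L] {D : Subgroup G} {f : D →* L}

theorem image_totallyBounded (hf : Continuous f) (hs : Function.Surjective f) {W : Set L}
    (hW : W ∈ 𝓝 (1 : L)) : ∃ F : Finset L, ∀ x, ∃ g ∈ F, g⁻¹ * x ∈ W := by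
  classical
  have h1 : f ⁻¹' W ∈ 𝓝 (1 : D) := hf.continuousAt (by rwa [map_one])
  rw [nhds_subtype_eq_comap] at h1
  obtain ⟨U, hU, hUW⟩ := h1
  obtain ⟨F, hF⟩ := exists_finset_subgroup D (W := U) hU
  refine ⟨F.image f, fun x => ?_⟩
  obtain ⟨d, rfl⟩ := hs x
  obtain ⟨g, hg, hgd⟩ := hF d
  refine ⟨f g, Finset.mem_image_of_mem f hg, ?_⟩
  have h2 : f (g⁻¹ * d) ∈ W := hUW hgd
  simpa using h2

/-- The sets whose closures form a local base of the image. -/
def img (f : D →* L) (U : Set G) : Set L := closure (f '' {d : D | (d : G) ∈ U})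

theorem img_mem (hs : Function.Surjective f) {U : Set G} (hU : U ∈ 𝓝 (1 : G)) :
    img f U ∈ 𝓝 (1 : L) := by
  classical
  obtain ⟨V, hV, hVV⟩ := exists_split hU
  obtain ⟨F, hF⟩ := exists_finset_subgroup D (W := V) hV
  -- the image is a finite union of translates of `img f V`
  have hcov : (⋃ g ∈ F, {x : L | (f g)⁻¹ * x ∈ img f V}) = Set.univ := by
    refine eq_univ_of_forall fun x => ?_
    obtain ⟨d, rfl⟩ := hs x
    obtain ⟨g, hg, hgd⟩ := hF d
    refine mem_iUnion₂.2 ⟨g, hg, ?_⟩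
    have : f (g⁻¹ * d) ∈ img f V := subset_closure ⟨_, hgd, rfl⟩
    simpa using this
  have hint : (interior (img f V)).Nonempty := by
    by_contra hne
    rw [not_nonempty_iff_eq_empty] at hne
    have hall : ∀ T : Finset D, interior (⋃ g ∈ T, {x : L | (f g)⁻¹ * x ∈ img f V}) = ∅ := by
      intro T
      induction T using Finset.induction_on with
      | empty => simp
      | insert a T ha ih =>
        rw [Finset.set_biUnion_insert]
        have hcl : IsClosed {x : L | (f a)⁻¹ * x ∈ img f V} :=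
          isClosed_closure.preimage (continuous_const.mul continuous_id)
        rw [interior_union_isClosed_of_interior_empty hcl ih]
        have h5 : {x : L | (f a)⁻¹ * x ∈ img f V} = (Homeomorph.mulLeft (f a)⁻¹) ⁻¹' (img f V) :=
          rfl
        rw [h5, ← Homeomorph.preimage_interior, hne, preimage_empty]
    have h6 := hall F
    rw [hcov, interior_univ] at h6
    exact (univ_nonempty (α := L)).ne_empty h6
  obtain ⟨x, hx⟩ := hint
  have h7 : {y : L | x * y ∈ interior (img f V)} ∈ 𝓝 (1 : L) := by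
    refine (isOpen_interior.preimage (continuous_const.mul continuous_id)).mem_nhds ?_
    simpa using hx
  refine mem_of_superset h7 ?_
  intro y hy
  have hy' : x * y ∈ closure (f '' {d : D | (d : G) ∈ V}) := interior_subset hy
  have hx' : x ∈ closure (f '' {d : D | (d : G) ∈ V}) := interior_subset hx
  have h8 : x⁻¹ * (x * y) ∈ closure (f '' {d : D | (d : G) ∈ U}) := by
    refine map_mem_closure₂ (f := fun a b : L => a⁻¹ * b) (by fun_prop) hx' hy' ?_
    rintro _ ⟨u, hu, rfl⟩ _ ⟨v, hv, rfl⟩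
    refine ⟨u⁻¹ * v, ?_, by simp⟩
    have := hVV _ hu _ hv
    simpa using this
  rwa [inv_mul_cancel_left] at h8

theorem exists_img_subset (hf : Continuous f) {ι : Type} {U : ι → Set G}
    (hb : ∀ W ∈ 𝓝 (1 : G), ∃ i, U i ⊆ W) {W : Set L} (hW : W ∈ 𝓝 (1 : L)) :
    ∃ i, img f (U i) ⊆ W := by
  obtain ⟨W', hW', hcl, hWW⟩ := exists_mem_nhds_isClosed_subset hW
  have h1 : f ⁻¹' W' ∈ 𝓝 (1 : D) := hf.continuousAt (by rwa [map_one])
  rw [nhds_subtype_eq_comap] at h1
  obtain ⟨O, hO, hOW⟩ := h1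
  obtain ⟨i, hi⟩ := hb O hO
  refine ⟨i, (closure_minimal ?_ hcl).trans hWW⟩
  rintro _ ⟨d, hd, rfl⟩
  exact hOW (hi hd)

end Image

end Pool.Agent.Helper9CC
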