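import Mathlib
import Pool.Agent.Helper9CC.Group
import Pool.Agent.W910.Hull.MATools

/-!
# Compact subsets of full weight in `ω`-bounded groups of weight `ℵ₁`
-/

set_option autoImplicit false

open Set Filter Topology Cardinal Pointwise TopologicalSpace

namespace Pool.Agent.Helper9CC

open Pool.Agent.W684
open Pool.Agent.W910.Hull (Om1 mk_Om1 countable_Iic exists_gt_of_countable not_countable_univ)

/-- Every countable subset is contained in a compact subset. -/
def OmegaBounded (L : Type) [TopologicalSpace L] : Prop :=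
  ∀ A : Set L, A.Countable → ∃ K : Set L, IsCompact K ∧ A ⊆ K

theorem compactSpace_of_weight {L : Type} [TopologicalSpace L] [T2Space L] (hω : OmegaBounded L)
    (hw : weight L ≤ ℵ₀) : CompactSpace L := by
  have h1 : SecondCountableTopology L := secondCountable_iff.2 hw
  obtain ⟨A, hA, hAd⟩ := TopologicalSpace.exists_countable_dense L
  obtain ⟨K, hK, hAK⟩ := hω A hA
  have h2 : K = Set.univ := by
    refine eq_univ_of_univ_subset ?_
    rw [← hAd.closure_eq]
    exact closure_minimal hAK hK.isClosed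
  rw [h2] at hK
  exact ⟨hK⟩

theorem weight_univ (L : Type) [TopologicalSpace L] : weight (Set.univ : Set L) = weight L :=
  weight_homeomorph (Homeomorph.Set.univ L)

theorem exists_bound (s : ℕ → Om1) : ∃ a, ∀ n, s n ≤ a := by
  obtain ⟨a, -, ha⟩ := exists_gt_of_countable not_countable_univ (countable_range s)
  exact ⟨a, fun n => (ha _ ⟨n, rfl⟩).le⟩

theorem exists_compact_weight {L : Type} [Group L] [TopologicalSpace L] [IsTopologicalGroup L]
    [T2Space L] (hω : OmegaBounded L) (E : Om1 → Set L) (hE : ∀ i, E i ∈ 𝓝 (1 : L))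
    (hb : ∀ W ∈ 𝓝 (1 : L), ∃ i, E i ⊆ W)
    (ht : ∀ W ∈ 𝓝 (1 : L), ∃ F : Finset L, ∀ x, ∃ f ∈ F, f⁻¹ * x ∈ W) :
    ∃ C : Set L, IsCompact C ∧ weight C = weight L := by
  by_cases hw : weight L ≤ ℵ₀
  · have := compactSpace_of_weight hω hw
    exact ⟨Set.univ, isCompact_univ, weight_univ L⟩
  have hL : weight L ≤ ℵ₁ := weight_le_of_local E hE hb ht (aleph0_le_aleph 1) mk_Om1.le
  have hx : ∀ a : Om1, ∃ x : L, x ≠ 1 ∧ ∀ b ≤ a, x ∈ E b := by
    by_contra hcon
    push Not at hcon
    obtain ⟨a, ha⟩ := hcon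
    apply hw
    obtain ⟨e, he⟩ := (countable_Iic a).exists_eq_range ⟨a, mem_Iic.2 le_rfl⟩
    choose V hV hVc hVE using fun n => exists_mem_nhds_isClosed_subset (hE (e n))
    refine weight_le_of_local (fun n : ℕ => ⋂ k ∈ Finset.range (n + 1), V k) (fun n => ?_) ?_ ht
      le_rfl (mk_le_aleph0 (α := ℕ))
    · rw [Filter.biInter_finset_mem]
      exact fun k _ => hV k
    · intro W hW
      by_contra hcon
      push Not at hcon
      obtain ⟨W', hW'W, hW'o, hW'1⟩ := mem_nhds_iff.1 hW
      have h1 : ∀ n : ℕ, ∃ x, x ∈ (⋂ k ∈ Finset.range (n + 1), V k) ∧ x ∉ W' := by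
        intro n
        obtain ⟨x, hx1, hx2⟩ := not_subset.1 (hcon n)
        exact ⟨x, hx1, fun h => hx2 (hW'W h)⟩
      choose x hx hxW using h1
      obtain ⟨K, hK, hxK⟩ := hω (range x) (countable_range x)
      obtain ⟨z, -, hz⟩ := hK.isCountablyCompact.seq_clusterPt x
        (Eventually.of_forall fun n => hxK ⟨n, rfl⟩)
      rw [mapClusterPt_atTop_iff_forall_mem_closure] at hz
      have hzV : ∀ k, z ∈ V k := by
        intro k
        refine closure_minimal ?_ (hVc k) (hz k)
        rintro _ ⟨n, hn, rfl⟩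
        have h2 := mem_iInter₂.1 (hx n) k (Finset.mem_range.2 (Nat.lt_succ_of_le hn))
        exact h2
      have hz1 : z = 1 := by
        by_contra hne
        obtain ⟨b, hba, hzb⟩ := ha z hne
        have hb2 : b ∈ Iic a := hba
        rw [he] at hb2
        obtain ⟨n, rfl⟩ := hb2
        exact hzb (hVE n (hzV n))
      have hzW : z ∈ W'ᶜ := by
        refine closure_minimal ?_ hW'o.isClosed_compl (hz 0)
        rintro _ ⟨n, -, rfl⟩
        exact hxW n
      exact hzW (hz1 ▸ hW'1)
  choose x hx1 hxE using hx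
  have hKc : ∀ a : Om1, IsCompact (closure (x '' Iic a)) := by
    intro a
    obtain ⟨K, hK, hxK⟩ := hω (x '' Iic a) ((countable_Iic a).image x)
    exact hK.of_isClosed_subset isClosed_closure (closure_minimal hxK hK.isClosed)
  let C : Set L := closure (insert 1 (range x))
  have hKC : ∀ a : Om1, closure (x '' Iic a) ⊆ C := fun a =>
    closure_mono ((image_subset_range _ _).trans (subset_insert _ _))
  have h1C : (1 : L) ∈ C := subset_closure (mem_insert _ _)
  have hxC : ∀ a, x a ∈ C := fun a => subset_closure (mem_insert_of_mem _ ⟨a, rfl⟩)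
  have hC : IsCompact C := by
    rw [isCompact_iff_ultrafilter_le_nhds]
    intro 𝒰 h𝒰
    by_cases hex : ∃ a : Om1, closure (x '' Iic a) ∈ 𝒰
    · obtain ⟨a, ha⟩ := hex
      obtain ⟨z, hz, hz2⟩ := isCompact_iff_ultrafilter_le_nhds.1 (hKc a) 𝒰
        (le_principal_iff.2 ha)
      exact ⟨z, hKC a hz, hz2⟩
    · push Not at hex
      refine ⟨1, h1C, fun W hW => ?_⟩
      obtain ⟨W', hW', hcl, hWW⟩ := exists_mem_nhds_isClosed_subset hW
      obtain ⟨i, hi⟩ := hb W' hW'
      have h2 : C ⊆ closure (x '' Iic i) ∪ W' := by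
        refine closure_minimal ?_ (isClosed_closure.union hcl)
        rintro y (rfl | ⟨a, rfl⟩)
        · exact Or.inr (mem_of_mem_nhds hW')
        · rcases le_total a i with h | h
          · exact Or.inl (subset_closure ⟨a, h, rfl⟩)
          · exact Or.inr (hi (hxE a i h))
      have h3 : (closure (x '' Iic i))ᶜ ∈ 𝒰 := Ultrafilter.compl_mem_iff_notMem.2 (hex i)
      filter_upwards [h3, le_principal_iff.1 h𝒰] with y hy hyC
      rcases h2 hyC with h | h
      · exact absurd h hy
      · exact hWW h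
  refine ⟨C, hC, le_antisymm (weight_le_of_inducing IsInducing.subtypeVal) ?_⟩
  refine hL.trans ?_
  by_contra hlt
  have hlt' : weight C ≤ ℵ₀ := by
    have h2 : weight C < ℵ₁ := not_le.1 hlt
    rw [← succ_aleph0] at h2
    exact Order.lt_succ_iff.1 h2
  have hsc : SecondCountableTopology C := secondCountable_iff.2 hlt'
  obtain ⟨O, hO⟩ := (𝓝 (⟨1, h1C⟩ : C)).exists_antitone_basis
  have h4 : ∀ n, ∃ i, ∀ c : C, (c : L) ∈ E i → c ∈ O n := by
    intro n
    have h5 := hO.1.mem_of_mem (i := n) trivial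
    rw [nhds_subtype_eq_comap] at h5
    obtain ⟨U, hU, hUO⟩ := h5
    obtain ⟨i, hi⟩ := hb U hU
    exact ⟨i, fun c hc => hUO (hi hc)⟩
  choose i hi using h4
  obtain ⟨a, ha⟩ := exists_bound i
  have h6 : ({(⟨x a, hxC a⟩ : C)}ᶜ : Set C) ∈ 𝓝 (⟨1, h1C⟩ : C) := by
    refine isClosed_singleton.isOpen_compl.mem_nhds ?_
    intro h
    exact hx1 a (congrArg Subtype.val h).symm
  obtain ⟨n, -, hn⟩ := hO.1.mem_iff.1 h6
  exact hn (hi n ⟨x a, hxC a⟩ (hxE a (i n) (ha n))) rfl

end Pool.Agent.Helper9CC
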