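import Mathlib
import Pool.Agent.Helper9CC.Weight

/-!
# Countably compact subgroups of compact groups of weight `ℵ₁`: main lemmas
-/

set_option autoImplicit false

open Set Filter Topology Cardinal Pointwise TopologicalSpace

namespace Pool.Agent.Helper9CC

open Pool.Agent.W684
open Pool.Agent.W910.Hull (Om1 mk_Om1 countable_Iic exists_gt_of_countable not_countable_univ)

theorem closure_subset (hMA : MartinAxiomAleph1) {G : Type} [TopologicalSpace G] [T2Space G]
    (hG : weight G ≤ ℵ₁) {D A : Set G} (hD : IsCountablyCompact D) (hA : A.Countable)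
    (hAD : A ⊆ D) : closure A ⊆ D := by
  obtain ⟨B, hB, hBc⟩ := exists_basis G
  exact closure_subset_of_ma hMA hB (hBc.le.trans hG) hD hA hAD

theorem exists_surj_Om1 {S : Type} [Nonempty S] (h : #S ≤ ℵ₁) :
    ∃ e : Om1 → S, Function.Surjective e := by
  rw [← mk_Om1] at h
  obtain ⟨e⟩ := h
  exact ⟨Function.invFun e, Function.invFun_surjective e.injective⟩

/-- A local base indexed by `ω₁`. -/
theorem exists_local {G : Type} [Group G] [TopologicalSpace G] (hG : weight G ≤ ℵ₁) :
    ∃ U : Om1 → Set G, (∀ i, U i ∈ 𝓝 (1 : G)) ∧ ∀ W ∈ 𝓝 (1 : G), ∃ i, U i ⊆ W := by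
  obtain ⟨B, hB, hBc⟩ := exists_basis G
  have hne : Nonempty {b : B // (1 : G) ∈ b.1} := by
    obtain ⟨b, hb, h1, -⟩ := hB.mem_nhds_iff.1 (univ_mem : (Set.univ : Set G) ∈ 𝓝 (1 : G))
    exact ⟨⟨⟨b, hb⟩, h1⟩⟩
  obtain ⟨e, he⟩ := exists_surj_Om1 ((mk_subtype_le (fun b : B => (1 : G) ∈ b.1)).trans
    (hBc.le.trans hG))
  refine ⟨fun i => (e i).1.1, fun i => hB.mem_nhds (e i).1.2 (e i).2, fun W hW => ?_⟩
  obtain ⟨b, hb, h1, hbW⟩ := hB.mem_nhds_iff.1 hW
  obtain ⟨i, hi⟩ := he ⟨⟨b, hb⟩, h1⟩
  refine ⟨i, ?_⟩
  show (e i).1.1 ⊆ W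
  rw [hi]
  exact hbW

theorem omegaBounded_image (hMA : MartinAxiomAleph1) {G L : Type} [TopologicalSpace G]
    [CompactSpace G] [T2Space G] [TopologicalSpace L] (hG : weight G ≤ ℵ₁) {D : Set G}
    (hD : IsCountablyCompact D) {f : D → L} (hf : Continuous f) (hs : Function.Surjective f) :
    OmegaBounded L := by
  intro A hA
  choose g hg using hs
  have h1 : closure ((fun a => (g a : G)) '' A) ⊆ D := by
    refine closure_subset hMA hG hD (hA.image _) ?_
    rintro _ ⟨a, -, rfl⟩
    exact (g a).2
  refine ⟨f '' (Subtype.val ⁻¹' closure ((fun a => (g a : G)) '' A)), ?_, ?_⟩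
  · refine IsCompact.image ?_ hf
    rw [Topology.IsInducing.subtypeVal.isCompact_iff, Subtype.image_preimage_coe,
      inter_eq_self_of_subset_right h1]
    exact isClosed_closure.isCompact
  · intro a ha
    exact ⟨g a, subset_closure ⟨a, ha, rfl⟩, hg a⟩

/-- Under `MA_{ℵ₁}` every continuous homomorphic image `L` of a countably compact subgroup of a
compact group of weight at most `ℵ₁` has a compact subset of the same weight as `L`. -/
theorem wcompact_image (hMA : MartinAxiomAleph1) {G L : Type} [Group G] [TopologicalSpace G]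
    [IsTopologicalGroup G] [CompactSpace G] [T2Space G] (hG : weight G ≤ ℵ₁) (D : Subgroup G)
    (hD : IsCountablyCompact (D : Set G)) [Group L] [TopologicalSpace L] [IsTopologicalGroup L]
    [T2Space L] (f : D →* L) (hf : Continuous f) (hs : Function.Surjective f) :
    ∃ C : Set L, IsCompact C ∧ weight C = weight L := by
  obtain ⟨U, hU, hUb⟩ := exists_local hG
  exact exists_compact_weight (omegaBounded_image hMA hG hD hf hs) (fun i => img f (U i))
    (fun i => img_mem hs (hU i)) (fun W hW => exists_img_subset hf hUb hW)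
    (fun W hW => image_totallyBounded hf hs hW)

/-- An infinite compact Hausdorff group is uncountable. -/
theorem not_countable_of_compact {G : Type} [Group G] [TopologicalSpace G]
    [IsTopologicalGroup G] [T2Space G] (C : Subgroup G) (hC : IsCompact (C : Set G))
    (hinf : (C : Set G).Infinite) : ¬ (C : Set G).Countable := by
  intro hcount
  have h1 : CompactSpace C := isCompact_iff_compactSpace.1 hC
  have h2 : Countable C := hcount.to_subtype
  have h3 : ∃ x : C, (interior ({x} : Set C)).Nonempty :=
    nonempty_interior_of_iUnion_of_closed (fun x : C => isClosed_singleton) (by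
      ext x; simp)
  obtain ⟨x, y, hy⟩ := h3
  have hyx : y = x := by
    have := interior_subset hy
    simpa using this
  subst hyx
  have h4 : IsOpen ({y} : Set C) := by
    rw [← interior_eq_iff_isOpen]
    exact subset_antisymm interior_subset (singleton_subset_iff.2 hy)
  have h5 : IsOpen ({1} : Set C) := by
    have h6 : ({1} : Set C) = (fun x => y * x) ⁻¹' {y} := by
      ext x
      simp
    rw [h6]
    exact h4.preimage (continuous_const.mul continuous_id)
  have h7 : DiscreteTopology C := discreteTopology_of_isOpen_singleton_one h5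
  have h8 : Finite C := finite_of_compact_of_discrete
  exact hinf (Set.toFinite _)

/-- Under `MA_{ℵ₁}` every infinite countably compact subgroup of a compact group of weight at most
`ℵ₁` contains an uncountable compact subgroup. -/
theorem exists_compact_subgroup (hMA : MartinAxiomAleph1) {G : Type} [Group G]
    [TopologicalSpace G] [IsTopologicalGroup G] [CompactSpace G] [T2Space G]
    (hG : weight G ≤ ℵ₁) (D : Subgroup G) (hD : IsCountablyCompact (D : Set G))
    (hinf : (D : Set G).Infinite) :
    ∃ C : Subgroup G, C ≤ D ∧ IsCompact (C : Set G) ∧ ¬ (C : Set G).Countable := by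
  obtain ⟨s, hsD, hs⟩ : ∃ s : ℕ → G, (∀ n, s n ∈ D) ∧ Function.Injective s :=
    ⟨fun n => (hinf.natEmbedding _ n : G), fun n => (hinf.natEmbedding _ n).2,
      fun a b h => (hinf.natEmbedding _).injective (Subtype.ext h)⟩
  have hA : (Subgroup.closure (range s) : Set G).Countable := by
    have : Countable (range s) := (countable_range s).to_subtype
    have h1 : Subgroup.closure (range s) ≤
        (FreeGroup.lift (Subtype.val : range s → G)).range := by
      rw [Subgroup.closure_le]
      intro x hx
      exact ⟨FreeGroup.of ⟨x, hx⟩, by simp⟩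
    have h2 : (((FreeGroup.lift (Subtype.val : range s → G)).range : Subgroup G) : Set G).Countable :=
      Set.countable_range _
    exact h2.mono h1
  have hAD : Subgroup.closure (range s) ≤ D := by
    rw [Subgroup.closure_le]
    rintro _ ⟨n, rfl⟩
    exact hsD n
  refine ⟨(Subgroup.closure (range s)).topologicalClosure, ?_, ?_, ?_⟩
  · exact closure_subset hMA hG hD hA hAD
  · exact (Subgroup.isClosed_topologicalClosure _).isCompact
  · refine not_countable_of_compact _ (Subgroup.isClosed_topologicalClosure _).isCompact ?_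
    refine (infinite_range_of_injective hs).mono ?_
    exact Subset.trans Subgroup.subset_closure (Subgroup.le_topologicalClosure _)

/-- The weight of a product of second countable spaces. -/
theorem weight_pi_le {ι K : Type} [TopologicalSpace K] [SecondCountableTopology K]
    {κ : Cardinal.{0}} (hκ : ℵ₀ ≤ κ) (hι : #ι ≤ κ) : weight (ι → K) ≤ κ := by
  classical
  have hB := isTopologicalBasis_pi (ι := ι) (X := fun _ => K)
    (fun _ => isBasis_countableBasis K)
  let T : Type := ι × countableBasis K
  have hT : #T ≤ κ := by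
    have h1 : #(countableBasis K) ≤ ℵ₀ := mk_le_aleph0_iff.2 (countable_countableBasis K).to_subtype
    rw [mk_prod, lift_id, lift_id]
    exact (mul_le_mul' hι (h1.trans hκ)).trans (mul_eq_self hκ).le
  have hF : #(Finset T) ≤ κ := by
    have h2 : #T ≤ #κ.out := by rwa [mk_out]
    obtain ⟨e⟩ := h2
    have h3 : Infinite κ.out := by
      rw [infinite_iff, mk_out]
      exact hκ
    refine (mk_le_of_injective (f := fun s : Finset T => s.map e)
      (Finset.map_injective e)).trans ?_
    rw [mk_finset_of_infinite, mk_out]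
  refine (weight_le hB).trans ?_
  refine le_trans (mk_le_mk_of_subset (t := range (fun s : Finset T =>
    {x : ι → K | ∀ p ∈ s, x p.1 ∈ p.2.1})) ?_) (mk_range_le.trans hF)
  rintro _ ⟨U, F, hU, rfl⟩
  refine ⟨F.attach.image (fun i => ((i.1, ⟨U i.1, hU i.1 i.2⟩) : T)), ?_⟩
  ext x
  simp only [Finset.mem_image, Finset.mem_attach, true_and, Subtype.exists, mem_ofPred_eq,
    Set.mem_pi, Finset.mem_coe]
  constructor
  · intro h i hi
    exact h _ ⟨i, hi, rfl⟩
  · rintro h p ⟨i, hi, rfl⟩
    exact h i hi

/-- An uncountable power of a nontrivial Hausdorff space is not metrizable. -/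
theorem not_metrizable_pi {ι K : Type} [TopologicalSpace K] [T1Space K] [Nontrivial K]
    [CompactSpace K] (hι : Uncountable ι) : ¬ MetrizableSpace (ι → K) := by
  classical
  intro hmet
  obtain ⟨a, b, hab⟩ := exists_pair_ne K
  have hfc : FirstCountableTopology (ι → K) := by
    letI := metrizableSpaceMetric (ι → K)
    infer_instance
  obtain ⟨O, hO⟩ := (𝓝 (fun _ : ι => a)).exists_antitone_basis
  have h1 : ∀ n, ∃ F : Finset ι, ∀ x : ι → K, (∀ i ∈ F, x i = a) → x ∈ O n := by
    intro n
    have h2 := hO.1.mem_of_mem (i := n) trivial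
    obtain ⟨V, hVO, hVo, haV⟩ := mem_nhds_iff.1 h2
    obtain ⟨F, u, hu, hFV⟩ := isOpen_pi_iff.1 hVo _ haV
    refine ⟨F, fun x hx => hVO (hFV ?_)⟩
    intro i hi
    rw [hx i hi]
    exact (hu i hi).2
  choose F hF using h1
  have h3 : (⋃ n, (F n : Set ι)).Countable := countable_iUnion fun n => (F n).countable_toSet
  obtain ⟨i, hi⟩ : ∃ i, i ∉ ⋃ n, (F n : Set ι) := by
    by_contra hcon
    push Not at hcon
    exact not_countable_univ_iff.2 hι (h3.mono fun i _ => hcon i)
  have h4 : {x : ι → K | x i ≠ b} ∈ 𝓝 (fun _ : ι => a) :=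
    (isOpen_compl_singleton.preimage (continuous_apply i)).mem_nhds hab
  obtain ⟨n, -, hn⟩ := hO.1.mem_iff.1 h4
  refine hn (hF n (Function.update (fun _ => a) i b) fun j hj => ?_) ?_
  · refine Function.update_of_ne ?_ _ _
    rintro rfl
    exact hi (mem_iUnion.2 ⟨n, hj⟩)
  · simp

end Pool.Agent.Helper9CC
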